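import Mathlib
import Pool.Agent.H8.Tau3

set_option autoImplicit false

namespace Pool.Agent.Results.MP_24a1d9_gt.NoPow

open Set Pool.Agent.H8.Tau

/-- open ω-, τ-, γ-covers of the space `Z` -/
abbrev Ω (Z : Type) [TopologicalSpace Z] : Set (Set Z) → Prop := Om IsOpen
abbrev T (Z : Type) [TopologicalSpace Z] : Set (Set Z) → Prop := Ta IsOpen
abbrev Γ (Z : Type) [TopologicalSpace Z] : Set (Set Z) → Prop := Ga IsOpen

theorem result (h : Cardinal.continuum.{0} = Cardinal.aleph 1) :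
    ∃ X : Set ℝ,
      (S1 (T X) (Γ X) ∧ S1 (T X) (T X) ∧ S1 (T X) (Ω X) ∧ Sfin (T X) (T X) ∧ Sfin (T X) (Ω X)) ∧
      ¬ S1 (T (Fin 2 → X)) (Γ (Fin 2 → X)) ∧ ¬ S1 (T (Fin 2 → X)) (T (Fin 2 → X)) ∧
      ¬ S1 (T (Fin 2 → X)) (Ω (Fin 2 → X)) ∧ ¬ Sfin (T (Fin 2 → X)) (T (Fin 2 → X)) ∧
      ¬ Sfin (T (Fin 2 → X)) (Ω (Fin 2 → X)) := by
  obtain ⟨S, hS, W, h1, h2, h3, h4⟩ := sier_sq h
  haveI : Nonempty S :=
    (nonempty_iff_ne_empty.2 fun e : S = ∅ => hS.1 (e ▸ countable_empty)).to_subtype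
  have hto : ∀ 𝒰, T S 𝒰 → Ω S 𝒰 := fun 𝒰 h => it_om h.1 h.enum'
  have h5 : S1 (T S) (T S) := hS.tg.mono (fun _ => id) fun _ => Ga.ta
  have h6 : S1 (T S) (Ω S) := h5.mono (fun _ => id) hto
  have n := not_sq h1 h2 h3 h4
  exact ⟨S, ⟨hS.tg, h5, h6, h5.sfin, h6.sfin⟩,
    fun H => n (H.sfin.mono (fun _ => Ga.ta) fun _ h => h.1),
    fun H => n (H.sfin.mono (fun _ => Ga.ta) fun _ h => h.1),
    fun H => n (H.sfin.mono (fun _ => Ga.ta) fun _ h => h.1),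
    fun H => n (H.mono (fun _ => Ga.ta) fun _ h => h.1),
    fun H => n (H.mono (fun _ => Ga.ta) fun _ h => h.1)⟩

end Pool.Agent.Results.MP_24a1d9_gt.NoPow
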