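import Pool.Agent.H18.MT3

set_option autoImplicit false

namespace Pool.Agent.Results.MP_24a1d9_gt.Q1

open Set Pool.Agent.H8.Tau

/-- `S₁(Ω, T)` is preserved under finite powers (ZFC), and under CH `S_fin(Ω, T)` is not. -/
theorem result :
    (∀ X : Set ℝ, S1 (Om (Z := X) IsOpen) (Ta IsOpen) → ∀ k : ℕ, 1 ≤ k →
      S1 (Om (Z := Fin k → X) IsOpen) (Ta IsOpen)) ∧
    (Cardinal.continuum.{0} = Cardinal.aleph 1 →
      ∃ X : Set ℝ, Sfin (Om (Z := X) IsOpen) (Ta IsOpen) ∧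
        ¬ Sfin (Om (Z := Fin 2 → X) IsOpen) (Ta IsOpen)) := by
  refine ⟨fun X H k hk 𝒰 h => (fin_ga (fun n => (h n).1) (pow_idx k (idx_O H) hk 𝒰 h)).imp
    fun _ hU => ⟨hU.1, hU.2.ta⟩, fun hCH => ?_⟩
  obtain ⟨X, φ, h⟩ := Pool.Agent.H18.MT.real hCH
  refine ⟨X, h.sfin, fun H => ?_⟩
  obtain ⟨𝒰, u1, u2⟩ := h.sq
  obtain ⟨F, f1, f2⟩ := H (fun _ => 𝒰) fun _ => u1
  exact u2 _ (iUnion_subset fun n => (f1 n).2) f2

end Pool.Agent.Results.MP_24a1d9_gt.Q1
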